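import Pool.Agent.H294R2.BF.L1

set_option autoImplicit false

/-!
# Dyadic cells: initial segments, products of intervals, balanced colourings
-/

open Finset

namespace Q123.BX

/-- an initial segment is a disjoint union of at most `L + 1` dyadic intervals -/
lemma prefix_sum (L : ℕ) : ∀ a c : ℕ, c < 2 ^ L → a ≤ 2 ^ L →
    (if c < a then (1 : ℝ) else 0) =
      ∑ j ∈ range (L + 1), if (a / 2 ^ j) % 2 = 1 ∧ c / 2 ^ j + 1 = a / 2 ^ j then (1 : ℝ) else 0 := by
  induction L with
  | zero =>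
    intro a c hc ha
    rw [pow_zero] at hc ha
    rw [zero_add, sum_range_one, pow_zero, Nat.div_one, Nat.div_one]
    have hc0 : c = 0 := by omega
    subst hc0
    by_cases h : 0 < a
    · have : a = 1 := by omega
      subst this
      simp
    · have : a = 0 := by omega
      subst this
      simp
  | succ L ih =>
    intro a c hc ha
    rw [sum_range_succ']
    have h1 : ∀ j ∈ range (L + 1),
        (if (a / 2 ^ (j + 1)) % 2 = 1 ∧ c / 2 ^ (j + 1) + 1 = a / 2 ^ (j + 1) then (1 : ℝ) else 0) =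
        if ((a / 2) / 2 ^ j) % 2 = 1 ∧ (c / 2) / 2 ^ j + 1 = (a / 2) / 2 ^ j then (1 : ℝ) else 0 := by
      intro j _
      rw [pow_succ', Nat.div_div_eq_div_mul, Nat.div_div_eq_div_mul]
    rw [sum_congr rfl h1, ← ih (a / 2) (c / 2) (by rw [pow_succ] at hc; omega)
      (by rw [pow_succ] at ha; omega), pow_zero, Nat.div_one, Nat.div_one]
    by_cases h2 : c / 2 < a / 2
    · have h3 : ¬ (a % 2 = 1 ∧ c + 1 = a) := by omega
      have h4 : c < a := by omega
      rw [if_pos h4, if_pos h2, if_neg h3, add_zero]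
    · by_cases h3 : a % 2 = 1 ∧ c + 1 = a
      · have h4 : c < a := by omega
        rw [if_pos h4, if_neg h2, if_pos h3, zero_add]
      · have h4 : ¬ c < a := by omega
        rw [if_neg h4, if_neg h2, if_neg h3, zero_add]

/-- the indicator of an interval as a signed sum over `Bool × {0, ..., L}` of dyadic intervals -/
lemma interval_sum (L : ℕ) (a b c : ℕ) (hc : c < 2 ^ L) (ha : a ≤ 2 ^ L) (hb : b ≤ 2 ^ L) :
    (if c < b then (1 : ℝ) else 0) - (if c < a then (1 : ℝ) else 0) =
      ∑ e ∈ (univ : Finset Bool) ×ˢ range (L + 1),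
        (if e.1 then (if (b / 2 ^ e.2) % 2 = 1 then (1 : ℝ) else 0)
          else - (if (a / 2 ^ e.2) % 2 = 1 then (1 : ℝ) else 0)) *
        (if c / 2 ^ e.2 = (if e.1 then b else a) / 2 ^ e.2 - 1 then (1 : ℝ) else 0) := by
  have key : ∀ a j : ℕ, (if (a / 2 ^ j) % 2 = 1 ∧ c / 2 ^ j + 1 = a / 2 ^ j then (1 : ℝ) else 0) =
      (if (a / 2 ^ j) % 2 = 1 then (1 : ℝ) else 0) *
        (if c / 2 ^ j = a / 2 ^ j - 1 then (1 : ℝ) else 0) := by
    intro a j
    generalize a / 2 ^ j = A
    generalize c / 2 ^ j = C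
    by_cases h1 : A % 2 = 1
    · by_cases h2 : C = A - 1
      · have h3 : C + 1 = A := by omega
        rw [if_pos ⟨h1, h3⟩, if_pos h1, if_pos h2, mul_one]
      · have h3 : ¬ C + 1 = A := by omega
        rw [if_neg (fun h => h3 h.2), if_neg h2, mul_zero]
    · rw [if_neg (fun h => h1 h.1), if_neg h1, zero_mul]
  rw [sum_product, Fintype.sum_bool, prefix_sum L b c hc hb, prefix_sum L a c hc ha,
    sub_eq_add_neg, ← sum_neg_distrib]
  congr 1
  · refine sum_congr rfl fun j _ => ?_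
    rw [key]
    simp
  · refine sum_congr rfl fun j _ => ?_
    rw [key]
    simp only [Bool.false_eq_true, if_false]
    ring

section Product

variable {X : Type*} [Fintype X] {d : ℕ}

/-- expansion of a product of signed sums of dyadic intervals -/
theorem prod_bound {E : Type*} (c : X → Fin d → ℕ) (χ : X → ℝ) (S : Finset E)
    (J : E → ℕ) (w : Fin d → E → ℝ) (M : Fin d → E → ℕ) (T : ℝ)
    (hw : ∀ i, ∀ e, |w i e| ≤ 1)
    (hT : ∀ (e : Fin d → E) (m : Fin d → ℕ), (∀ i, e i ∈ S) →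
      |∑ x, χ x * ∏ i, (if c x i / 2 ^ J (e i) = m i then (1 : ℝ) else 0)| ≤ T) :
    |∑ x, χ x * ∏ i, ∑ e ∈ S, w i e * (if c x i / 2 ^ J e = M i e then (1 : ℝ) else 0)| ≤
      (S.card : ℝ) ^ d * T := by
  classical
  have h1 : ∀ x, χ x * ∏ i, ∑ e ∈ S, w i e * (if c x i / 2 ^ J e = M i e then (1 : ℝ) else 0) =
      ∑ e ∈ Fintype.piFinset fun _ : Fin d => S,
        (∏ i, w i (e i)) * (χ x * ∏ i, (if c x i / 2 ^ J (e i) = M i (e i) then (1 : ℝ) else 0)) := by
    intro x
    rw [prod_univ_sum, mul_sum]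
    refine sum_congr rfl fun e _ => ?_
    rw [prod_mul_distrib]
    ring
  rw [sum_congr rfl fun x _ => h1 x, sum_comm]
  calc |∑ e ∈ Fintype.piFinset fun _ : Fin d => S, ∑ x,
        (∏ i, w i (e i)) * (χ x * ∏ i, (if c x i / 2 ^ J (e i) = M i (e i) then (1 : ℝ) else 0))|
      ≤ ∑ e ∈ Fintype.piFinset fun _ : Fin d => S, |∑ x,
        (∏ i, w i (e i)) * (χ x * ∏ i, (if c x i / 2 ^ J (e i) = M i (e i) then (1 : ℝ) else 0))| :=
      abs_sum_le_sum_abs _ _
    _ ≤ ∑ e ∈ Fintype.piFinset fun _ : Fin d => S, T := by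
      refine sum_le_sum fun e he => ?_
      rw [Fintype.mem_piFinset] at he
      rw [← mul_sum, abs_mul]
      have h2 : |∏ i, w i (e i)| ≤ 1 := by
        rw [abs_prod]
        exact prod_le_one (fun i _ => abs_nonneg _) fun i _ => hw i (e i)
      have h3 := hT e (fun i => M i (e i)) he
      calc |∏ i, w i (e i)| * |∑ x, χ x *
            ∏ i, (if c x i / 2 ^ J (e i) = M i (e i) then (1 : ℝ) else 0)|
          ≤ 1 * T := mul_le_mul h2 h3 (abs_nonneg _) zero_le_one
        _ = T := one_mul T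
    _ = (S.card : ℝ) ^ d * T := by
      rw [sum_const, Fintype.card_piFinset_const, nsmul_eq_mul]
      push_cast
      rfl

/-- a colouring which is balanced on all dyadic cells -/
theorem exists_balanced {v : ℕ} (L : ℕ) (c : Fin v → Fin d → ℕ) (hc : ∀ x i, c x i < 2 ^ L) :
    ∃ χ : Fin v → ℝ, (∀ x, χ x = 1 ∨ χ x = -1) ∧ ∀ (j m : Fin d → ℕ), (∀ i, j i ≤ L) →
      |∑ x, χ x * ∏ i, (if c x i / 2 ^ j i = m i then (1 : ℝ) else 0)| ≤ ((L : ℝ) + 1) ^ d := by
  classical
  set I := (Fin d → Fin (L + 1)) × (Fin d → Fin (2 ^ L)) with hI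
  let e : Fin (Fintype.card I) ≃ I := (Fintype.equivFin I).symm
  let A : Fin (Fintype.card I) → Fin v → ℝ := fun r x =>
    ∏ i, (if c x i / 2 ^ ((e r).1 i : ℕ) = ((e r).2 i : ℕ) then (1 : ℝ) else 0)
  have hprod : ∀ r x, A r x = if ∀ i, c x i / 2 ^ ((e r).1 i : ℕ) = ((e r).2 i : ℕ) then 1 else 0 := by
    intro r x
    simp only [A]
    by_cases h : ∀ i, c x i / 2 ^ ((e r).1 i : ℕ) = ((e r).2 i : ℕ)
    · rw [if_pos h]
      exact prod_eq_one fun i _ => if_pos (h i)
    · rw [if_neg h]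
      push Not at h
      obtain ⟨i, hi⟩ := h
      exact prod_eq_zero (mem_univ i) (if_neg hi)
  have hcol : ∀ x, ∑ r, |A r x| ≤ ((L : ℝ) + 1) ^ d := by
    intro x
    have h1 : ∀ r, |A r x| = if ∀ i, c x i / 2 ^ ((e r).1 i : ℕ) = ((e r).2 i : ℕ)
        then (1 : ℝ) else 0 := by
      intro r
      rw [hprod]
      split_ifs <;> simp
    rw [sum_congr rfl fun r _ => h1 r, sum_boole]
    have h2 : (univ.filter fun r => ∀ i, c x i / 2 ^ ((e r).1 i : ℕ) = ((e r).2 i : ℕ)).card ≤
        (L + 1) ^ d := by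
      calc _ ≤ (univ : Finset (Fin d → Fin (L + 1))).card := by
            refine card_le_card_of_injOn (fun r => (e r).1) (fun _ _ => mem_coe.2 (mem_univ _)) ?_
            intro r hr r' hr' hrr
            rw [mem_coe, mem_filter] at hr hr'
            simp only at hrr
            apply e.injective
            refine Prod.ext hrr ?_
            funext i
            apply Fin.ext
            rw [← hr.2 i, ← hr'.2 i, hrr]
        _ = (L + 1) ^ d := by simp
    exact_mod_cast h2
  obtain ⟨χ, hχ, h⟩ := H294BF.l1_signing A (((L : ℝ) + 1) ^ d) (by positivity) hcol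
  refine ⟨χ, hχ, ?_⟩
  intro j m hj
  by_cases hm : ∀ i, m i < 2 ^ L
  · have := h (e.symm (fun i => ⟨j i, Nat.lt_succ_of_le (hj i)⟩, fun i => ⟨m i, hm i⟩))
    simp only [A, Equiv.apply_symm_apply] at this
    rw [sum_congr rfl fun x _ => mul_comm _ _]
    exact this
  · push Not at hm
    obtain ⟨i, hi⟩ := hm
    rw [sum_eq_zero, abs_zero]
    · positivity
    · intro x _
      rw [prod_eq_zero (mem_univ i), mul_zero]
      rw [if_neg]
      intro h'
      have h2 : c x i / 2 ^ j i ≤ c x i := Nat.div_le_self _ _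
      have := hc x i
      omega

end Product

end Q123.BX
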