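import Pool.Agent.Q123.BX.Dyadic

set_option autoImplicit false

/-!
# Boolean combinations of axis-parallel half-spaces have small discrepancy
-/

open Finset

namespace Q123.BX

variable {v d s : ℕ}

/-- `S` is a Boolean combination of at most `s` conditions `x_i < a` -/
def Simple (pt : Fin v → Fin d → ℝ) (s : ℕ) (S : Finset (Fin v)) : Prop :=
  ∃ (i : Fin s → Fin d) (a : Fin s → ℝ) (𝓕 : Set (Set (Fin s))),
    ∀ x, x ∈ S ↔ {t | pt x (i t) < a t} ∈ 𝓕

/-- ranks -/
noncomputable def rk (pt : Fin v → Fin d → ℝ) (x : Fin v) (i : Fin d) : ℕ :=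
  (univ.filter fun y => pt y i < pt x i).card

lemma rk_lt (pt : Fin v → Fin d → ℝ) (x : Fin v) (i : Fin d) : rk pt x i < v := by
  have h : (univ.filter fun y => pt y i < pt x i) ⊂ univ := by
    rw [ssubset_univ_iff]
    intro h
    have := h ▸ mem_univ x
    rw [mem_filter] at this
    exact lt_irrefl _ this.2
  have := card_lt_card h
  rw [card_univ, Fintype.card_fin] at this
  exact this

/-- down-sets in a coordinate are initial segments of the ranks -/
lemma down (pt : Fin v → Fin d → ℝ) (i : Fin d) (P : Fin v → Prop) [DecidablePred P]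
    (hP : ∀ x y, pt y i ≤ pt x i → P x → P y) (x : Fin v) :
    P x ↔ rk pt x i < (univ.filter P).card := by
  constructor
  · intro h
    apply card_lt_card
    rw [ssubset_iff_of_subset (fun y hy => mem_filter.2 ⟨mem_univ _, hP x y
      (mem_filter.1 hy).2.le h⟩)]
    exact ⟨x, mem_filter.2 ⟨mem_univ _, h⟩, fun hx => lt_irrefl _ (mem_filter.1 hx).2⟩
  · intro h
    by_contra hcon
    apply absurd h
    rw [not_lt]
    apply card_le_card
    intro y hy
    rw [mem_filter] at hy ⊢
    refine ⟨mem_univ _, ?_⟩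
    by_contra hlt
    push Not at hlt
    exact hcon (hP y x hlt hy.2)

section Thr

variable (pt : Fin v → Fin d → ℝ) (i : Fin s → Fin d) (a : Fin s → ℝ)

/-- number of thresholds below a point in a coordinate -/
noncomputable def nth (x : Fin v) (l : Fin d) : ℕ :=
  (univ.filter fun t => i t = l ∧ a t ≤ pt x l).card

lemma nth_le (x : Fin v) (l : Fin d) : nth pt i a x l ≤ s := by
  refine (card_le_univ _).trans ?_
  rw [Fintype.card_fin]

/-- number of thresholds up to a given one -/
noncomputable def upto (t : Fin s) : ℕ := (univ.filter fun t' => i t' = i t ∧ a t' ≤ a t).card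

lemma lt_iff (x : Fin v) (t : Fin s) : pt x (i t) < a t ↔ nth pt i a x (i t) < upto i a t := by
  constructor
  · intro h
    apply card_lt_card
    rw [ssubset_iff_of_subset (fun u hu => by
      rw [mem_filter] at hu ⊢
      exact ⟨mem_univ _, hu.2.1, hu.2.2.trans h.le⟩)]
    refine ⟨t, mem_filter.2 ⟨mem_univ _, rfl, le_rfl⟩, fun ht => ?_⟩
    rw [mem_filter] at ht
    exact absurd ht.2.2 (not_le.2 h)
  · intro h
    by_contra hcon
    push Not at hcon
    apply absurd h
    rw [not_lt]
    apply card_le_card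
    intro u hu
    rw [mem_filter] at hu ⊢
    exact ⟨mem_univ _, hu.2.1, hu.2.2.trans hcon⟩

/-- size of the set where the number of thresholds is less than `m` -/
noncomputable def cut (l : Fin d) (m : ℕ) : ℕ := (univ.filter fun x => nth pt i a x l < m).card

lemma cut_le (l : Fin d) (m : ℕ) : cut pt i a l m ≤ v := by
  refine (card_le_univ _).trans ?_
  rw [Fintype.card_fin]

lemma nth_lt_iff (x : Fin v) (l : Fin d) (m : ℕ) :
    nth pt i a x l < m ↔ rk pt x l < cut pt i a l m := by
  refine down pt l (fun x => nth pt i a x l < m) ?_ x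
  intro x y hxy hx
  refine lt_of_le_of_lt (card_le_card ?_) hx
  intro u hu
  rw [mem_filter] at hu ⊢
  exact ⟨mem_univ _, hu.2.1, hu.2.2.trans hxy⟩

lemma ind_eq (x : Fin v) (l : Fin d) (m : ℕ) :
    (if nth pt i a x l = m then (1 : ℝ) else 0) =
      (if rk pt x l < cut pt i a l (m + 1) then (1 : ℝ) else 0) -
        (if rk pt x l < cut pt i a l m then (1 : ℝ) else 0) := by
  simp only [← nth_lt_iff]
  by_cases h1 : nth pt i a x l = m
  · rw [if_pos h1, if_pos (by omega), if_neg (by omega), sub_zero]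
  · by_cases h2 : nth pt i a x l < m
    · rw [if_neg h1, if_pos (by omega), if_pos h2, sub_self]
    · rw [if_neg h1, if_neg (by omega), if_neg h2, sub_self]

end Thr

/-- the discrepancy of a simple set -/
theorem simple_disc {L : ℕ} (hL : v ≤ 2 ^ L) (pt : Fin v → Fin d → ℝ) (χ : Fin v → ℝ)
    (hχ : ∀ (j m : Fin d → ℕ), (∀ i, j i ≤ L) →
      |∑ x, χ x * ∏ i, (if rk pt x i / 2 ^ j i = m i then (1 : ℝ) else 0)| ≤ ((L : ℝ) + 1) ^ d)
    {S : Finset (Fin v)} (hS : Simple pt s S) :
    |∑ x ∈ S, χ x| ≤ ((s : ℝ) + 1) ^ d * ((2 * ((L : ℝ) + 1)) ^ d * ((L : ℝ) + 1) ^ d) := by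
  classical
  obtain ⟨i, a, 𝓕, h⟩ := hS
  -- value on a cell
  set hv : (Fin d → Fin (s + 1)) → ℝ := fun g =>
    if {t | (g (i t) : ℕ) < upto i a t} ∈ 𝓕 then 1 else 0 with hhv
  have hcell : ∀ g : Fin d → Fin (s + 1),
      |∑ x, χ x * ∏ l, (if nth pt i a x l = (g l : ℕ) then (1 : ℝ) else 0)| ≤
        (2 * ((L : ℝ) + 1)) ^ d * ((L : ℝ) + 1) ^ d := by
    intro g
    have h1 := prod_bound (rk pt) χ ((univ : Finset Bool) ×ˢ range (L + 1)) (fun e => e.2)
      (fun l e => if e.1 then (if (cut pt i a l ((g l : ℕ) + 1) / 2 ^ e.2) % 2 = 1 then (1 : ℝ)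
        else 0) else - (if (cut pt i a l (g l) / 2 ^ e.2) % 2 = 1 then (1 : ℝ) else 0))
      (fun l e => (if e.1 then cut pt i a l ((g l : ℕ) + 1) else cut pt i a l (g l)) / 2 ^ e.2 - 1)
      (((L : ℝ) + 1) ^ d) (by
        intro l e
        split_ifs <;> simp) (by
        intro e m he
        refine hχ (fun l => (e l).2) m fun l => ?_
        have := (mem_product.1 (he l)).2
        rw [mem_range] at this
        omega)
    have h2 : (((univ : Finset Bool) ×ˢ range (L + 1)).card : ℝ) = 2 * ((L : ℝ) + 1) := by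
      rw [card_product, card_univ, Fintype.card_bool, card_range]
      push_cast
      ring
    rw [h2] at h1
    refine le_trans (le_of_eq ?_) h1
    congr 1
    refine sum_congr rfl fun x _ => ?_
    congr 1
    refine prod_congr rfl fun l _ => ?_
    rw [ind_eq, interval_sum L _ _ _ ((rk_lt pt x l).trans_le hL)
      ((cut_le pt i a l _).trans hL) ((cut_le pt i a l _).trans hL)]
  have hsum : ∑ x ∈ S, χ x = ∑ g : Fin d → Fin (s + 1), hv g *
      ∑ x, χ x * ∏ l, (if nth pt i a x l = (g l : ℕ) then (1 : ℝ) else 0) := by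
    have h1 : ∀ g : Fin d → Fin (s + 1), hv g *
        ∑ x, χ x * ∏ l, (if nth pt i a x l = (g l : ℕ) then (1 : ℝ) else 0) =
        ∑ x, χ x * (hv g * ∏ l, (if nth pt i a x l = (g l : ℕ) then (1 : ℝ) else 0)) := by
      intro g
      rw [mul_sum]
      refine sum_congr rfl fun x _ => ?_
      ring
    rw [sum_congr rfl fun g _ => h1 g, sum_comm, ← sum_filter_add_sum_filter_not univ (· ∈ S)]
    have h2 : ∀ x, ∑ g : Fin d → Fin (s + 1), χ x *
        (hv g * ∏ l, (if nth pt i a x l = (g l : ℕ) then (1 : ℝ) else 0)) =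
        χ x * (if x ∈ S then 1 else 0) := by
      intro x
      rw [← mul_sum]
      congr 1
      set g0 : Fin d → Fin (s + 1) := fun l => ⟨nth pt i a x l, Nat.lt_succ_of_le (nth_le pt i a x l)⟩
        with hg0
      rw [sum_eq_single g0]
      · have e1 : ∏ l, (if nth pt i a x l = (g0 l : ℕ) then (1 : ℝ) else 0) = 1 :=
          prod_eq_one fun l _ => if_pos rfl
        rw [e1, mul_one]
        have e2 : {t | (g0 (i t) : ℕ) < upto i a t} = {t | pt x (i t) < a t} := by
          ext t
          exact (lt_iff pt i a x t).symm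
        simp only [hhv, e2, ← h x]
      · intro g _ hg
        have : ∃ l, g l ≠ g0 l := by
          by_contra hcon
          push Not at hcon
          exact hg (funext hcon)
        obtain ⟨l, hl⟩ := this
        rw [prod_eq_zero (mem_univ l), mul_zero]
        rw [if_neg]
        intro h'
        exact hl (Fin.ext h'.symm)
      · intro hg
        exact absurd (mem_univ _) hg
    rw [sum_congr rfl fun x _ => h2 x, sum_congr rfl fun x _ => h2 x]
    have h3 : ∑ x ∈ univ.filter (fun x => ¬ x ∈ S), χ x * (if x ∈ S then (1 : ℝ) else 0) = 0 := by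
      refine sum_eq_zero fun x hx => ?_
      rw [if_neg (mem_filter.1 hx).2, mul_zero]
    rw [h3, add_zero, filter_mem_eq_inter, univ_inter]
    refine sum_congr rfl fun x hx => ?_
    rw [if_pos hx, mul_one]
  rw [hsum]
  calc |∑ g : Fin d → Fin (s + 1), hv g *
        ∑ x, χ x * ∏ l, (if nth pt i a x l = (g l : ℕ) then (1 : ℝ) else 0)|
      ≤ ∑ g : Fin d → Fin (s + 1), |hv g *
        ∑ x, χ x * ∏ l, (if nth pt i a x l = (g l : ℕ) then (1 : ℝ) else 0)| :=
        abs_sum_le_sum_abs _ _
    _ ≤ ∑ _g : Fin d → Fin (s + 1), (2 * ((L : ℝ) + 1)) ^ d * ((L : ℝ) + 1) ^ d := by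
        refine sum_le_sum fun g _ => ?_
        rw [abs_mul]
        have h1 : |hv g| ≤ 1 := by
          simp only [hhv]
          split_ifs <;> simp
        calc |hv g| * _ ≤ 1 * _ := mul_le_mul h1 (hcell g) (abs_nonneg _) zero_le_one
          _ = _ := one_mul _
    _ = ((s : ℝ) + 1) ^ d * ((2 * ((L : ℝ) + 1)) ^ d * ((L : ℝ) + 1) ^ d) := by
        rw [sum_const, card_univ, Fintype.card_fun, Fintype.card_fin, Fintype.card_fin,
          nsmul_eq_mul]
        push_cast
        rfl

end Q123.BX
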