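import Pool.Agent.Q123.BX.Grid

set_option autoImplicit false

/-!
# 2-designs with simple blocks
-/

open Finset

namespace Q123.BX

variable {v k lam b : ℕ}

/-- `B` lists the `b` blocks of a `2-(v, k, lam)` design -/
def IsDes (v k lam : ℕ) {b : ℕ} (B : Fin b → Finset (Fin v)) : Prop :=
  (∀ i, (B i).card = k) ∧ ∀ x y, x ≠ y → (univ.filter fun i => x ∈ B i ∧ y ∈ B i).card = lam

/-- number of blocks containing a point -/
def rep (B : Fin b → Finset (Fin v)) (x : Fin v) : ℕ := (univ.filter fun i => x ∈ B i).card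

lemma sum_rep (B : Fin b → Finset (Fin v)) : ∑ x, rep B x = ∑ i, (B i).card := by
  unfold rep
  simp only [card_filter]
  rw [sum_comm]
  refine sum_congr rfl fun i _ => ?_
  rw [← card_filter, filter_mem_eq_inter, univ_inter]

lemma pair_count {B : Fin b → Finset (Fin v)} (h : IsDes v k lam B) (x : Fin v) :
    rep B x + lam * (v - 1) = rep B x * k := by
  have h1 : ∑ y, (univ.filter fun i => x ∈ B i ∧ y ∈ B i).card = rep B x * k := by
    simp only [card_filter]
    rw [sum_comm]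
    have : ∀ i : Fin b, (∑ y : Fin v, if x ∈ B i ∧ y ∈ B i then 1 else 0)
        = if x ∈ B i then k else 0 := by
      intro i
      by_cases hx : x ∈ B i
      · simp only [hx, true_and, if_true]
        rw [← card_filter, filter_mem_eq_inter, univ_inter, h.1 i]
      · simp [hx]
    rw [sum_congr rfl fun i _ => this i, ← sum_filter, sum_const, smul_eq_mul]
    rfl
  have h2 : ∑ y, (univ.filter fun i => x ∈ B i ∧ y ∈ B i).card = rep B x + lam * (v - 1) := by
    rw [← add_sum_erase univ _ (mem_univ x)]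
    congr 1
    · unfold rep
      simp
    · rw [sum_congr rfl fun y hy => h.2 x y (ne_of_mem_erase hy).symm, sum_const, smul_eq_mul,
        card_erase_of_mem (mem_univ x), card_univ, Fintype.card_fin, mul_comm]
  rw [← h2, h1]

/-- the discrepancy of a design -/
theorem design_disc {B : Fin b → Finset (Fin v)} (h : IsDes v k lam B) (hl : 1 ≤ lam) (hk : 2 ≤ k)
    (hkv : k < v) {χ : Fin v → ℝ} (hχ : ∀ x, χ x = 1 ∨ χ x = -1) {A : ℝ}
    (hd : ∀ i, |∑ x ∈ B i, χ x| ≤ A) : (k : ℝ) * (v - k) ≤ (v - 1) * A ^ 2 := by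
  have hv : 1 ≤ v := by omega
  have hkR : (2 : ℝ) ≤ k := by exact_mod_cast hk
  have hlR : (1 : ℝ) ≤ lam := by exact_mod_cast hl
  have hkvR : (k : ℝ) + 1 ≤ v := by exact_mod_cast hkv
  have hA : 0 ≤ b * A ^ 2 := by positivity
  have hsq : ∀ x, χ x * χ x = 1 := by
    intro x
    rcases hχ x with h | h <;> rw [h] <;> norm_num
  have hpc : ∀ x, (rep B x : ℝ) * (k - 1) = lam * (v - 1) := by
    intro x
    have := pair_count h x
    have h' : ((rep B x + lam * (v - 1) : ℕ) : ℝ) = ((rep B x * k : ℕ) : ℝ) := by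
      exact_mod_cast this
    push_cast [Nat.cast_sub hv] at h'
    linarith
  set R : ℝ := lam * (v - 1) / (k - 1) with hR
  have hk1 : (0 : ℝ) < k - 1 := by linarith
  have hv1 : (0 : ℝ) < v - 1 := by linarith
  have hrep : ∀ x, (rep B x : ℝ) = R := by
    intro x
    rw [hR, eq_div_iff hk1.ne']
    exact hpc x
  have hRk : R * (k - 1) = lam * (v - 1) := by
    rw [hR]
    field_simp
  have hR0 : 0 < R := by
    rw [hR]
    apply div_pos _ hk1
    apply mul_pos _ hv1
    linarith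
  have hbk : (b : ℝ) * k = v * R := by
    have h1 := sum_rep B
    rw [sum_congr rfl fun i _ => h.1 i, sum_const, card_univ, Fintype.card_fin, smul_eq_mul] at h1
    have h2 : (∑ x, (rep B x : ℝ)) = (b : ℝ) * k := by exact_mod_cast h1
    rw [← h2, sum_congr rfl fun x _ => hrep x, sum_const, card_univ, Fintype.card_fin,
      nsmul_eq_mul]
  -- the quadratic form
  have hquad : ∑ i, (∑ x ∈ B i, χ x) ^ 2 = lam * (∑ x, χ x) ^ 2 + (R - lam) * v := by
    have h1 : ∀ i, (∑ x ∈ B i, χ x) ^ 2 =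
        ∑ x, ∑ y, χ x * χ y * (if x ∈ B i ∧ y ∈ B i then 1 else 0) := by
      intro i
      rw [sq, sum_mul_sum]
      have e1 : ∀ x, ∑ y, χ x * χ y * (if x ∈ B i ∧ y ∈ B i then (1 : ℝ) else 0) =
          if x ∈ B i then ∑ y ∈ B i, χ x * χ y else 0 := by
        intro x
        by_cases hx : x ∈ B i
        · rw [if_pos hx]
          simp only [hx, true_and, mul_ite, mul_one, mul_zero]
          rw [← sum_filter, filter_mem_eq_inter, univ_inter]
        · rw [if_neg hx]
          simp [hx]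
      rw [sum_congr rfl fun x _ => e1 x, ← sum_filter, filter_mem_eq_inter, univ_inter]
    have h2 : ∀ x y, ∑ i, χ x * χ y * (if x ∈ B i ∧ y ∈ B i then (1 : ℝ) else 0) =
        lam * (χ x * χ y) + if x = y then R - lam else 0 := by
      intro x y
      rw [← mul_sum, sum_boole]
      by_cases hxy : x = y
      · subst hxy
        rw [if_pos rfl]
        have : (univ.filter fun i => x ∈ B i ∧ x ∈ B i).card = rep B x := by
          unfold rep
          simp
        rw [this, hrep, hsq]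
        ring
      · rw [if_neg hxy, h.2 x y hxy]
        ring
    rw [sum_congr rfl fun i _ => h1 i, sum_comm]
    have h3 : ∀ x, ∑ i, ∑ y, χ x * χ y * (if x ∈ B i ∧ y ∈ B i then (1 : ℝ) else 0) =
        lam * (χ x * ∑ y, χ y) + (R - lam) := by
      intro x
      rw [sum_comm, sum_congr rfl fun y _ => h2 x y, sum_add_distrib, ← mul_sum, ← mul_sum,
        sum_ite_eq, if_pos (mem_univ x)]
    rw [sum_congr rfl fun x _ => h3 x, sum_add_distrib, sum_const, card_univ, Fintype.card_fin,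
      nsmul_eq_mul, ← mul_sum, ← sum_mul]
    ring
  have hup : ∑ i, (∑ x ∈ B i, χ x) ^ 2 ≤ b * A ^ 2 := by
    calc ∑ i, (∑ x ∈ B i, χ x) ^ 2 ≤ ∑ _i : Fin b, A ^ 2 := by
          refine sum_le_sum fun i _ => ?_
          rw [← sq_abs]
          exact pow_le_pow_left₀ (abs_nonneg _) (hd i) 2
      _ = b * A ^ 2 := by rw [sum_const, card_univ, Fintype.card_fin, nsmul_eq_mul]
  have h1 : (R - lam) * v ≤ b * A ^ 2 := by
    have : 0 ≤ (lam : ℝ) * (∑ x, χ x) ^ 2 := by positivity
    linarith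
  have hvR : (0 : ℝ) < v := by linarith
  have h2 : (R - lam) * k ≤ R * A ^ 2 := by
    have h3 : (v : ℝ) * ((R - lam) * k) ≤ v * (R * A ^ 2) := by
      calc (v : ℝ) * ((R - lam) * k) = ((R - lam) * v) * k := by ring
        _ ≤ (b * A ^ 2) * k := mul_le_mul_of_nonneg_right h1 (by linarith)
        _ = (b * k) * A ^ 2 := by ring
        _ = v * (R * A ^ 2) := by rw [hbk]; ring
    exact le_of_mul_le_mul_left h3 hvR
  have h3 : (R - lam) * (v - 1) = R * (v - k) := by linear_combination hRk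
  have h4 : R * ((k : ℝ) * (v - k)) ≤ R * ((v - 1) * A ^ 2) := by
    calc R * ((k : ℝ) * (v - k)) = ((R - lam) * (v - 1)) * k := by rw [h3]; ring
      _ = ((R - lam) * k) * (v - 1) := by ring
      _ ≤ (R * A ^ 2) * (v - 1) := mul_le_mul_of_nonneg_right h2 hv1.le
      _ = R * ((v - 1) * A ^ 2) := by ring
  exact le_of_mul_le_mul_left h4 hR0

/-- block sizes of 2-designs with simple blocks -/
theorem block_bound {d s : ℕ} {B : Fin b → Finset (Fin v)} (h : IsDes v k lam B) (hl : 1 ≤ lam)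
    (hk : 2 ≤ k) (hkv : k < v) (pt : Fin v → Fin d → ℝ) (hS : ∀ i, Simple pt s (B i)) :
    k * (v - k) ≤ (v - 1) * (2 * (s + 1) * (Nat.clog 2 v + 1) ^ 2) ^ (2 * d) := by
  set L := Nat.clog 2 v with hL
  have hvL : v ≤ 2 ^ L := Nat.le_pow_clog (by norm_num) v
  obtain ⟨χ, hχ, hb⟩ := exists_balanced L (rk pt) fun x i => (rk_lt pt x i).trans_le hvL
  have h1 := design_disc h hl hk hkv hχ fun i => simple_disc hvL pt χ hb (hS i)
  have h2 : (((s : ℝ) + 1) ^ d * ((2 * ((L : ℝ) + 1)) ^ d * ((L : ℝ) + 1) ^ d)) ^ 2 =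
      (2 * ((s : ℝ) + 1) * ((L : ℝ) + 1) ^ 2) ^ (2 * d) := by
    rw [← mul_pow, ← mul_pow, ← pow_mul, mul_comm d 2]
    congr 1
    ring
  rw [h2] at h1
  have h3 : ((k * (v - k) : ℕ) : ℝ) ≤
      (((v - 1) * (2 * (s + 1) * (L + 1) ^ 2) ^ (2 * d) : ℕ) : ℝ) := by
    push_cast [Nat.cast_sub hkv.le, Nat.cast_sub (show 1 ≤ v by omega)]
    exact h1
  exact_mod_cast h3

lemma half_bound {v k M : ℕ} (hkv : 2 * k ≤ v) (hk : 1 ≤ k) (h : k * (v - k) ≤ (v - 1) * M) :
    k ≤ 2 * M := by
  by_contra hcon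
  push Not at hcon
  have h1 : v ≤ 2 * (v - k) := by omega
  have h2 : (2 * M + 1) * v ≤ 2 * (k * (v - k)) := by
    calc (2 * M + 1) * v ≤ k * (2 * (v - k)) := Nat.mul_le_mul (by omega) h1
      _ = 2 * (k * (v - k)) := by ring
  have h3 : (v - 1) * M ≤ v * M := Nat.mul_le_mul_right _ (Nat.sub_le _ _)
  have h4 : (2 * M + 1) * v = 2 * (v * M) + v := by ring
  omega

/-- symmetric designs with simple blocks -/
theorem sym_bound {d s : ℕ} {B : Fin v → Finset (Fin v)} (h : IsDes v k lam B) (hl : 1 ≤ lam)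
    (hk : 2 ≤ k) (hkv : k + 2 ≤ v) (pt : Fin v → Fin d → ℝ) (hS : ∀ i, Simple pt s (B i)) :
    v ≤ 4 * (2 * (s + 1) * (Nat.clog 2 v + 1) ^ 2) ^ (4 * d) := by
  have h1 := block_bound h hl hk (by omega) pt hS
  set M := (2 * (s + 1) * (Nat.clog 2 v + 1) ^ 2) ^ (2 * d) with hM
  have hMM : (2 * (s + 1) * (Nat.clog 2 v + 1) ^ 2) ^ (4 * d) = M ^ 2 := by
    rw [hM, ← pow_mul]
    congr 1
    ring
  rw [hMM]
  -- parameters
  have hpc := pair_count h
  have hs := sum_rep B
  rw [sum_congr rfl fun i _ => h.1 i, sum_const, card_univ, Fintype.card_fin, smul_eq_mul] at hs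
  have hrep : ∀ x, rep B x = k := by
    intro x
    have heq : ∀ y, rep B y = rep B x := by
      intro y
      have e1 := hpc x
      have e2 := hpc y
      obtain ⟨m, rfl⟩ : ∃ m, k = m + 2 := ⟨k - 2, by omega⟩
      have e3 : rep B x * (m + 2) = rep B x + rep B x * (m + 1) := by ring
      have e4 : rep B y * (m + 2) = rep B y + rep B y * (m + 1) := by ring
      have e5 : rep B y * (m + 1) = rep B x * (m + 1) := by omega
      exact Nat.eq_of_mul_eq_mul_right (by omega) e5
    rw [sum_congr rfl fun y _ => heq y, sum_const, card_univ, Fintype.card_fin, smul_eq_mul] at hs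
    exact Nat.eq_of_mul_eq_mul_left (by omega) hs
  have hf := hpc ⟨0, by omega⟩
  rw [hrep] at hf
  have hfZ : (k : ℤ) + lam * (v - 1) = k * k := by
    have : ((k + lam * (v - 1) : ℕ) : ℤ) = ((k * k : ℕ) : ℤ) := by exact_mod_cast hf
    push_cast [Nat.cast_sub (show 1 ≤ v by omega)] at this
    linarith
  have hlZ : (1 : ℤ) ≤ lam := by exact_mod_cast hl
  have hkZ : (2 : ℤ) ≤ k := by exact_mod_cast hk
  have hkvZ : (k : ℤ) + 2 ≤ v := by exact_mod_cast hkv
  rcases le_total (2 * k) v with h2 | h2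
  · have h3 := half_bound h2 (by omega) h1
    have h4 : (v : ℤ) ≤ k * k := by nlinarith
    have h5 : v ≤ k * k := by exact_mod_cast h4
    calc v ≤ k * k := h5
      _ ≤ (2 * M) * (2 * M) := Nat.mul_le_mul h3 h3
      _ = 4 * M ^ 2 := by ring
  · obtain ⟨w, hw⟩ : ∃ w, v = k + w := ⟨v - k, by omega⟩
    have h3 : w ≤ 2 * M := by
      apply half_bound (v := v) (by omega) (by omega)
      rw [show v - w = k by omega]
      calc w * k = k * (v - k) := by rw [hw, Nat.add_sub_cancel_left]; ring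
        _ ≤ _ := h1
    have hwZ : (v : ℤ) = k + w := by exact_mod_cast hw
    have hw2 : (2 : ℤ) ≤ w := by omega
    have h4 : (w : ℤ) * (w - 1) = (v - 1) * (v - 2 * k + lam) := by
      have : (w : ℤ) = v - k := by linarith
      rw [this]
      linear_combination -hfZ
    have h5 : (1 : ℤ) ≤ v - 2 * k + lam := by
      by_contra hcon
      push Not at hcon
      have h6 : (v : ℤ) - 2 * k + lam ≤ 0 := by linarith
      have h7 : ((v : ℤ) - 1) * (v - 2 * k + lam) ≤ 0 :=
        mul_nonpos_of_nonneg_of_nonpos (by linarith) h6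
      nlinarith
    have h8 : (v : ℤ) ≤ w * w := by nlinarith
    have h9 : v ≤ w * w := by exact_mod_cast h8
    calc v ≤ w * w := h9
      _ ≤ (2 * M) * (2 * M) := Nat.mul_le_mul h3 h3
      _ = 4 * M ^ 2 := by ring

/-- polylogarithms are smaller than `v` -/
theorem polylog_finite (C e : ℕ) : ∃ M : ℕ, ∀ v : ℕ, v ≤ C * (Nat.clog 2 v + 1) ^ e → v ≤ M := by
  have h1 := tendsto_pow_const_div_const_pow_of_one_lt e (show (1 : ℝ) < 2 by norm_num)
  have h2 := (h1.eventually (gt_mem_nhds (show (0 : ℝ) < 1 / (4 * (C + 1)) by positivity)))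
  rw [Filter.eventually_atTop] at h2
  obtain ⟨l0, hl0⟩ := h2
  refine ⟨2 ^ (l0 + 1), ?_⟩
  intro v hv
  by_contra hcon
  push Not at hcon
  have hv2 : 1 < v := lt_of_le_of_lt Nat.one_le_two_pow hcon
  set l := Nat.clog 2 v + 1 with hl
  have h3 : 2 ^ (l - 2) < v := by
    have := Nat.pow_pred_clog_lt_self (b := 2) (by norm_num) hv2
    rw [Nat.pred_eq_sub_one] at this
    rw [show l - 2 = Nat.clog 2 v - 1 by omega]
    exact this
  have h4 : l0 + 1 < Nat.clog 2 v := by
    rw [Nat.lt_clog_iff_pow_lt (by norm_num)]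
    exact hcon
  have h5 := hl0 l (by omega)
  have h6 : (0 : ℝ) < 2 ^ l := by positivity
  rw [div_lt_div_iff₀ h6 (by positivity)] at h5
  have h7 : (2 : ℝ) ^ l = 4 * 2 ^ (l - 2) := by
    rw [show l = (l - 2) + 2 by omega, pow_add]
    norm_num
    ring
  have h8 : ((2 : ℝ) ^ (l - 2)) < v := by exact_mod_cast h3
  have h9 : (v : ℝ) ≤ C * (l : ℝ) ^ e := by exact_mod_cast hv
  have h10 : (C : ℝ) * (l : ℝ) ^ e ≤ (C + 1) * (l : ℝ) ^ e :=
    mul_le_mul_of_nonneg_right (by linarith) (by positivity)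
  rw [h7] at h5
  linarith

end Q123.BX
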