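import Pool.Agent.Q123.BX.Main

set_option autoImplicit false

/-!
# 2-designs with two intersection numbers, one of them zero
-/

open Finset

namespace Q123.BX

variable {v k lam b : ℕ}

/-- `λ ≥ 2` and block intersections in `{0, y}` force `v ≤ (k - 1)² + 1` -/
theorem quasi_params {B : Fin b → Finset (Fin v)} (h : IsDes v k lam B) (hl : 2 ≤ lam)
    (hk : 2 ≤ k) (hkv : k < v) {y : ℕ}
    (hy : ∀ i j, i ≠ j → (B i ∩ B j).card = 0 ∨ (B i ∩ B j).card = y) :
    v ≤ (k - 1) ^ 2 + 1 := by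
  -- a common replication number
  have hpc := pair_count h
  set x0 : Fin v := ⟨0, by omega⟩ with hx0
  have heq : ∀ x, rep B x = rep B x0 := by
    intro x
    have e1 := hpc x
    have e2 := hpc x0
    obtain ⟨m, rfl⟩ : ∃ m, k = m + 2 := ⟨k - 2, by omega⟩
    have e3 : rep B x * (m + 2) = rep B x + rep B x * (m + 1) := by ring
    have e4 : rep B x0 * (m + 2) = rep B x0 + rep B x0 * (m + 1) := by ring
    have e5 : rep B x * (m + 1) = rep B x0 * (m + 1) := by omega
    exact Nat.eq_of_mul_eq_mul_right (by omega) e5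
  set r := rep B x0 with hr
  have hr0 : 0 < r := by
    by_contra hcon
    have : r = 0 := by omega
    have e2 := hpc x0
    rw [← hr, this, zero_add, zero_mul] at e2
    rcases Nat.mul_eq_zero.1 e2 with h1 | h1 <;> omega
  obtain ⟨i, hi⟩ : (univ.filter fun i => x0 ∈ B i).Nonempty := card_pos.1 hr0
  have h1 : ∑ j, (B i ∩ B j).card = k * r := by
    have : ∀ j, (B i ∩ B j).card = ∑ x ∈ B i, if x ∈ B j then 1 else 0 := by
      intro j
      rw [← card_filter, filter_mem_eq_inter]
    rw [sum_congr rfl fun j _ => this j, sum_comm]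
    have : ∀ x ∈ B i, (∑ j : Fin b, if x ∈ B j then 1 else 0) = r := by
      intro x _
      rw [← card_filter]
      exact heq x
    rw [sum_congr rfl this, sum_const, h.1 i, smul_eq_mul]
  have h2 : ∑ j, (B i ∩ B j).card * (B i ∩ B j).card = k * r + k * (k - 1) * lam := by
    have : ∀ j, (B i ∩ B j).card * (B i ∩ B j).card =
        ∑ x ∈ B i, ∑ y ∈ B i, if x ∈ B j ∧ y ∈ B j then 1 else 0 := by
      intro j
      have e : (B i ∩ B j).card = ∑ x ∈ B i, if x ∈ B j then 1 else 0 := by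
        rw [← card_filter, filter_mem_eq_inter]
      rw [e, sum_mul_sum]
      refine sum_congr rfl fun x _ => sum_congr rfl fun y _ => ?_
      by_cases hx : x ∈ B j <;> by_cases hy : y ∈ B j <;> simp [hx, hy]
    rw [sum_congr rfl fun j _ => this j, sum_comm]
    have : ∀ x ∈ B i, (∑ j : Fin b, ∑ y ∈ B i, if x ∈ B j ∧ y ∈ B j then 1 else 0)
        = r + (k - 1) * lam := by
      intro x hx
      rw [sum_comm, ← add_sum_erase _ _ hx]
      congr 1
      · simp only [and_self]
        rw [← card_filter]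
        exact heq x
      · rw [sum_congr rfl fun y hy => by
          rw [← card_filter, h.2 x y (ne_of_mem_erase hy).symm], sum_const, card_erase_of_mem hx,
          h.1 i, smul_eq_mul]
    rw [sum_congr rfl this, sum_const, h.1 i, smul_eq_mul]
    ring
  -- remove the block itself
  have a1 : k + ∑ j ∈ univ.erase i, (B i ∩ B j).card = k * r := by
    have := add_sum_erase univ (fun j => (B i ∩ B j).card) (mem_univ i)
    simp only [inter_self, h.1 i] at this
    rw [h1] at this
    exact this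
  have a2 : k * k + ∑ j ∈ univ.erase i, (B i ∩ B j).card * (B i ∩ B j).card =
      k * r + k * (k - 1) * lam := by
    have := add_sum_erase univ (fun j => (B i ∩ B j).card * (B i ∩ B j).card) (mem_univ i)
    simp only [inter_self, h.1 i] at this
    rw [h2] at this
    exact this
  have a3 : ∑ j ∈ univ.erase i, (B i ∩ B j).card * (B i ∩ B j).card =
      y * ∑ j ∈ univ.erase i, (B i ∩ B j).card := by
    rw [mul_sum]
    refine sum_congr rfl fun j hj => ?_
    rcases hy i j (ne_of_mem_erase hj).symm with h | h <;> rw [h]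
    simp
  rw [a3] at a2
  -- (y - 1) (r - 1) = (k - 1) (lam - 1)
  obtain ⟨kk, rfl⟩ : ∃ m, k = m + 1 := ⟨k - 1, by omega⟩
  obtain ⟨rr, hrr⟩ : ∃ m, r = m + 1 := ⟨r - 1, by omega⟩
  obtain ⟨ll, rfl⟩ : ∃ m, lam = m + 1 := ⟨lam - 1, by omega⟩
  rw [hrr] at a1 a2
  have a4 : ∑ j ∈ univ.erase i, (B i ∩ B j).card = (kk + 1) * rr := by
    have : (kk + 1) * (rr + 1) = (kk + 1) + (kk + 1) * rr := by ring
    omega
  rw [a4, Nat.add_sub_cancel] at a2
  have a5 : y * rr = rr + kk * ll := by
    have h5 : (kk + 1) * (kk + 1 + y * rr) = (kk + 1) * (kk + 1 + (rr + kk * ll)) := by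
      calc (kk + 1) * (kk + 1 + y * rr) = (kk + 1) * (kk + 1) + y * ((kk + 1) * rr) := by ring
        _ = (kk + 1) * (rr + 1) + (kk + 1) * kk * (ll + 1) := a2
        _ = _ := by ring
    have := Nat.eq_of_mul_eq_mul_left (by omega) h5
    omega
  have a6 : 2 ≤ y := by
    by_contra hcon
    have h6 : y * rr ≤ 1 * rr := Nat.mul_le_mul_right _ (by omega)
    have h7 : 0 < kk * ll := Nat.mul_pos (by omega) (by omega)
    omega
  have a7 : rr ≤ kk * ll := by
    have : 2 * rr ≤ y * rr := Nat.mul_le_mul_right _ a6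
    omega
  have e2 := hpc x0
  rw [← hr, hrr] at e2
  have e3 : (ll + 1) * (v - 1) = (rr + 1) * kk := by
    have : (rr + 1) * (kk + 1) = (rr + 1) + (rr + 1) * kk := by ring
    omega
  rw [Nat.add_sub_cancel]
  have e4 : (ll + 1) * (v - 1) ≤ (ll + 1) * (kk * kk) := by
    rw [e3]
    calc (rr + 1) * kk ≤ (kk * ll + kk) * kk := Nat.mul_le_mul_right _ (by omega)
      _ = (ll + 1) * (kk * kk) := by ring
  have e5 := Nat.le_of_mul_le_mul_left e4 (by omega)
  rw [sq]
  omega

theorem quasi_bound {d s : ℕ} {B : Fin b → Finset (Fin v)} (h : IsDes v k lam B) (hl : 2 ≤ lam)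
    (hk : 2 ≤ k) (hkv : 2 * k ≤ v) {y : ℕ}
    (hy : ∀ i j, i ≠ j → (B i ∩ B j).card = 0 ∨ (B i ∩ B j).card = y)
    (pt : Fin v → Fin d → ℝ) (hS : ∀ i, Simple pt s (B i)) :
    v ≤ 4 * (2 * (s + 1) * (Nat.clog 2 v + 1) ^ 2) ^ (4 * d) := by
  have h1 := block_bound h (by omega) hk (by omega) pt hS
  set M := (2 * (s + 1) * (Nat.clog 2 v + 1) ^ 2) ^ (2 * d) with hM
  have hMM : (2 * (s + 1) * (Nat.clog 2 v + 1) ^ 2) ^ (4 * d) = M ^ 2 := by
    rw [hM, ← pow_mul]
    congr 1
    ring
  rw [hMM]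
  have h3 := half_bound hkv (by omega) h1
  have h4 := quasi_params h hl hk (by omega) hy
  calc v ≤ (k - 1) ^ 2 + 1 := h4
    _ ≤ k ^ 2 := by
      obtain ⟨m, rfl⟩ : ∃ m, k = m + 1 := ⟨k - 1, by omega⟩
      rw [Nat.add_sub_cancel]
      nlinarith
    _ ≤ (2 * M) ^ 2 := Nat.pow_le_pow_left h3 2
    _ = 4 * M ^ 2 := by ring

end Q123.BX
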